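import Pool.Agent.H38.AB.Targets

/-!
# CNT: the number of dependent sets
-/

set_option autoImplicit false

open Pool.Agent.H38.RB Pool.Agent.H38.PS Pool.Agent.H82.RD Pool.Agent.H38.AB

namespace Pool.Agent.H11.AB

lemma pd_erase_le {R : Finset ℕ} {p X : ℕ} (hp : p ∈ R) (hR : ∀ p ∈ R, p.Prime)
    (h : pd R ≤ X) : pd (R.erase p) ≤ X := by
  refine le_trans ?_ h
  unfold pd
  rw [← Finset.mul_prod_erase R (fun p => p) hp]
  exact Nat.le_mul_of_pos_left _ (hR p hp).pos

lemma union_erase {S R : Finset ℕ} {p : ℕ} (hp : p ∈ R) :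
    insert p S ∪ R.erase p = S ∪ R := by
  ext a
  simp only [Finset.mem_union, Finset.mem_insert, Finset.mem_erase]
  by_cases h : a = p
  · subst h
    simp [hp]
  · simp [h]

lemma Dpt_erase {q e Bd : ℕ} {S R : Finset ℕ} {p : ℕ} (hp : p ∈ R) (h : Dpt q e Bd S R) :
    Dpt q e Bd (insert p S) (R.erase p) := by
  obtain ⟨α, γ, h1, h2, h3⟩ := h
  refine ⟨α, γ, ?_, ?_, ?_⟩
  · rw [union_erase hp]
    exact h1
  · intro a ha
    exact h2 a (Finset.mem_of_mem_erase ha)
  · rw [union_erase hp]
    exact h3

lemma key (X q e Ω m : ℕ) (hm : 1 ≤ m)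
    (hD : ∀ (S : Finset ℕ) (R : Fin m → Finset ℕ), S.card ≤ Ω →
      (∀ l ∈ S, l.Prime ∧ l ≠ q) →
      (∀ i, (R i).Nonempty ∧ (R i).card ≤ Ω ∧ Disjoint S (R i) ∧
        (∀ p ∈ R i, p.Prime ∧ p ≠ q) ∧ pd (R i) ≤ X ∧ Dpt q e (X ^ 30) S (R i)) →
      (∀ i j, i ≠ j → Disjoint (R i) (R j)) → False) (k : ℕ) :
    ∀ (S : Finset ℕ) (F : Finset (Finset ℕ)), (∀ l ∈ S, l.Prime ∧ l ≠ q) →
      (∀ R ∈ F, R.card ≤ k ∧ S.card + R.card ≤ Ω ∧ Disjoint S R ∧
        (∀ p ∈ R, p.Prime ∧ p ≠ q) ∧ pd R ≤ X ∧ Dpt q e (X ^ 30) S R) →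
      F.card ≤ (m * Ω + 1) ^ k := by
  classical
  induction k with
  | zero =>
    intro S F _ hF
    have h : F ⊆ {∅} := by
      intro R hR
      have := (hF R hR).1
      simp only [Finset.mem_singleton]
      exact Finset.card_eq_zero.mp (by omega)
    have := Finset.card_le_card h
    simpa using this
  | succ k ih =>
    intro S F hS hF
    set F' := F.filter (fun R => R.Nonempty) with hF'
    set P := F'.powerset.filter (fun M => ∀ A ∈ M, ∀ B ∈ M, A ≠ B → Disjoint A B) with hP
    have hPne : P.Nonempty := ⟨∅, by simp [hP]⟩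
    obtain ⟨M, hMP, hMmax⟩ := Finset.exists_max_image P Finset.card hPne
    have hM1 : M ⊆ F' := by
      have := (Finset.mem_filter.mp hMP).1
      exact Finset.mem_powerset.mp this
    have hM2 : ∀ A ∈ M, ∀ B ∈ M, A ≠ B → Disjoint A B := (Finset.mem_filter.mp hMP).2
    have hMF : ∀ A ∈ M, A ∈ F ∧ A.Nonempty := fun A hA => Finset.mem_filter.mp (hM1 hA)
    have hcard : M.card ≤ m := by
      by_contra hcon
      push Not at hcon
      obtain ⟨M', hM'1, hM'2⟩ := Finset.exists_subset_card_eq hcon.le
      let E := Finset.equivFinOfCardEq hM'2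
      have hmem : ∀ i : Fin m, ((E.symm i : M') : Finset ℕ) ∈ M := fun i =>
        hM'1 (E.symm i).2
      refine hD S (fun i => ((E.symm i : M') : Finset ℕ)) ?_ hS ?_ ?_
      · have := (hF _ (hMF _ (hmem ⟨0, hm⟩)).1).2.1
        omega
      · intro i
        obtain ⟨h1, h2⟩ := hMF _ (hmem i)
        obtain ⟨g1, g2, g3, g4, g5, g6⟩ := hF _ h1
        exact ⟨h2, by omega, g3, g4, g5, g6⟩
      · intro i j hij
        refine hM2 _ (hmem i) _ (hmem j) ?_
        intro h
        apply hij
        exact E.symm.injective (Subtype.ext h)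
    set U := M.biUnion id with hU
    have hUc : U.card ≤ m * Ω := by
      refine (Finset.card_biUnion_le_card_mul M id Ω ?_).trans
        (Nat.mul_le_mul_right Ω hcard)
      intro A hA
      have := (hF A (hMF A hA).1).2.1
      simp only [id]
      omega
    have hmeet : ∀ R ∈ F, R.Nonempty → ∃ p ∈ R, p ∈ U := by
      intro R hR hRn
      by_contra hcon
      push Not at hcon
      have hdis : ∀ A ∈ M, Disjoint R A := by
        intro A hA
        rw [Finset.disjoint_left]
        intro p hp1 hp2
        exact hcon p hp1 (Finset.mem_biUnion.mpr ⟨A, hA, hp2⟩)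
      have hRM : R ∉ M := by
        intro h
        have := hdis R h
        rw [Finset.disjoint_self_iff_empty] at this
        rw [this] at hRn
        exact Finset.not_nonempty_empty hRn
      have hin : insert R M ∈ P := by
        rw [hP, Finset.mem_filter, Finset.mem_powerset]
        refine ⟨?_, ?_⟩
        · intro A hA
          rcases Finset.mem_insert.mp hA with h | h
          · rw [h, hF', Finset.mem_filter]
            exact ⟨hR, hRn⟩
          · exact hM1 h
        · intro A hA B hB hAB
          rcases Finset.mem_insert.mp hA with h | h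
          · rcases Finset.mem_insert.mp hB with h' | h'
            · exact absurd (h.trans h'.symm) hAB
            · rw [h]
              exact hdis B h'
          · rcases Finset.mem_insert.mp hB with h' | h'
            · rw [h']
              exact (hdis A h).symm
            · exact hM2 A h B h' hAB
      have := hMmax _ hin
      rw [Finset.card_insert_of_notMem hRM] at this
      omega
    let Fp : ℕ → Finset (Finset ℕ) := fun p =>
      (F.filter (fun R => p ∈ R)).image (fun R => R.erase p)
    have hFp : ∀ p ∈ U, (Fp p).card ≤ (m * Ω + 1) ^ k := by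
      intro p hp
      obtain ⟨A, hA, hpA⟩ := Finset.mem_biUnion.mp hp
      have hpA' : p ∈ A := hpA
      have hpp : p.Prime ∧ p ≠ q := (hF A (hMF A hA).1).2.2.2.1 p hpA'
      refine ih (insert p S) (Fp p) ?_ ?_
      · intro l hl
        rcases Finset.mem_insert.mp hl with h | h
        · rw [h]
          exact hpp
        · exact hS l h
      · intro R' hR'
        obtain ⟨R, hR, rfl⟩ := Finset.mem_image.mp hR'
        obtain ⟨hRF, hpR⟩ := Finset.mem_filter.mp hR
        obtain ⟨g1, g2, g3, g4, g5, g6⟩ := hF R hRF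
        have hpS : p ∉ S := fun h => Finset.disjoint_left.mp g3 h hpR
        have hc : (R.erase p).card = R.card - 1 := Finset.card_erase_of_mem hpR
        have hRpos : 0 < R.card := Finset.card_pos.mpr ⟨p, hpR⟩
        refine ⟨by omega, ?_, ?_, ?_, ?_, ?_⟩
        · rw [Finset.card_insert_of_notMem hpS, hc]
          omega
        · rw [Finset.disjoint_left]
          intro a ha ha2
          rcases Finset.mem_insert.mp ha with h | h
          · exact (Finset.mem_erase.mp ha2).1 h
          · exact Finset.disjoint_left.mp g3 h (Finset.mem_of_mem_erase ha2)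
        · intro a ha
          exact g4 a (Finset.mem_of_mem_erase ha)
        · exact pd_erase_le hpR (fun a ha => (g4 a ha).1) g5
        · exact Dpt_erase hpR g6
    have hsub : F ⊆ insert ∅ (U.biUnion fun p => (Fp p).image (fun R => insert p R)) := by
      intro R hR
      rw [Finset.mem_insert]
      rcases R.eq_empty_or_nonempty with h | h
      · exact Or.inl h
      · right
        obtain ⟨p, hp1, hp2⟩ := hmeet R hR h
        rw [Finset.mem_biUnion]
        refine ⟨p, hp2, ?_⟩
        rw [Finset.mem_image]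
        refine ⟨R.erase p, ?_, Finset.insert_erase hp1⟩
        exact Finset.mem_image.mpr ⟨R, Finset.mem_filter.mpr ⟨hR, hp1⟩, rfl⟩
    have h1 : F.card ≤ (U.biUnion fun p => (Fp p).image (fun R => insert p R)).card + 1 :=
      (Finset.card_le_card hsub).trans (Finset.card_insert_le _ _)
    have h2 : (U.biUnion fun p => (Fp p).image (fun R => insert p R)).card ≤
        U.card * (m * Ω + 1) ^ k := by
      apply Finset.card_biUnion_le_card_mul
      intro p hp
      exact Finset.card_image_le.trans (hFp p hp)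
    have h3 : U.card * (m * Ω + 1) ^ k ≤ m * Ω * (m * Ω + 1) ^ k :=
      Nat.mul_le_mul_right _ hUc
    have h4 : 1 ≤ (m * Ω + 1) ^ k := Nat.one_le_pow _ _ (Nat.succ_pos _)
    calc F.card ≤ m * Ω * (m * Ω + 1) ^ k + (m * Ω + 1) ^ k := by omega
      _ = (m * Ω + 1) ^ (k + 1) := by ring

theorem pf_CNT (hDJ : T_DJ) : T_CNT := by
  intro β hβ0 hβ1
  obtain ⟨X₀, hX₀, h⟩ := hDJ β hβ0 hβ1
  refine ⟨X₀, hX₀, ?_⟩
  intro X q e Ω S F hX hq hqX hΩ he hS hF
  refine key X q e Ω (Nat.log 2 X + 1) (by omega) ?_ Ω S F hS ?_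
  · intro S' R h1 h2 h3 h4
    exact h X q e Ω (Nat.log 2 X + 1) S' R hX hq hqX rfl hΩ he h1 h2 h3 h4
  · intro R hR
    obtain ⟨g1, g2⟩ := hF R hR
    exact ⟨by omega, g1, g2⟩

end Pool.Agent.H11.AB
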